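import Pool.Agent.ALG70.AW

/-!
# Public-key encryption relative to linear oracles, for example low-degree extensions

The definitions are in `Pool.Agent.PKE70.Defs` (oracle algorithms), `Pool.Agent.ALG70.Defs`
(schemes, probabilities), `Pool.Agent.ALG70.InvPhi` (one-wayness), `Pool.Agent.ALG70.LowDeg`
(low-degree polynomials) and `Pool.Agent.ALG70.AW` (the oracles of Aaronson and Wigderson in
characteristic `p`).
-/

set_option autoImplicit false

open scoped BigOperators

namespace Pool.Agent.Results.MP_5f4f03_lc.AlgebraicOracles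

open Pool.Agent.PKE70 Pool.Agent.ALG70 MvPolynomial

/-- First part. Let `W` be any submodule of the functions `D → R`, where `R` is a finite module of
length at most `r` over a ring `K` (a vector space of dimension at most `r`, if `K` is a field),
and let the oracle be a uniformly random element of `W`. Every public-key encryption scheme whose
algorithms make at most `q` adaptive queries to the oracle is broken by an adversary with at most
`3000 r⁴ q⁵ / ε⁴` queries, relative to which the restriction of the oracle to any information set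
of `W` is one-way, and so is every function `φ` of it with few collisions.

Second part: for functions given by polynomials of degree at most `d` in each of `m` variables over
a field, the grid `T^m` is an information set if `T` has `d + 1` elements.

Third part: the oracles of Aaronson and Wigderson over any fields `F i` of characteristic `p`, for
every prime `p`: functions `A n : {0,1}^n → ZMod p`, for all `n ≤ M + κ`, together with extensions
of `A n` over each `F i` of degree at most `c` in each variable; the elements of `F i` are encoded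
by strings of `2 ^ κ` elements of `ZMod p`. They form a vector space over `ZMod p`, and for each
`k ≤ M` the values `A (k + κ) (x, l)`, `l ∈ {0,1}^κ`, as functions of `x ∈ {0,1}^k`, can be
prescribed. For `p = 2` the functions are Boolean. For every `p` the oracle contains Boolean
functions, `[A n = 0]`, with extensions over each `F i` of degree at most `(p - 1) c` in each
variable, whose values are obtained from one answer of the oracle; `zeros` gives the bits
`[A (k + κ) (x, l) = 0]`, and its collision probability is exponentially small. -/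
theorem result :
    (∀ (K D R PK SK C ΩG ΩE ΩD : Type) [Ring K] [AddCommGroup R] [Module K R] [DecidableEq D]
      [Fintype D] [Fintype R] [DecidableEq R] [Fintype ΩG] [Fintype ΩE] [Fintype ΩD]
      (W : Submodule K (D → R)) (S : PKE D R PK SK C ΩG ΩE ΩD) (q r : ℕ) (ε : ℝ),
      S.QueryBound q → 1 ≤ q → Module.length K R ≤ r → 1 ≤ r → 0 < ε → ε ≤ 1 →
      ∃ A : PK → C → QAlg D R Bool,
        (∀ pk c f, ((A pk c).cost f : ℝ) ≤ 3000 * r ^ 4 * q ^ 5 / ε ^ 4) ∧
        S.decProb W ≤ S.advProb W A + ε ∧
        ∀ (X Y ΩS : Type) [Fintype X] [DecidableEq Y] [Fintype ΩS] (φ : R → Y) (j : X → D),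
          InfoSet j W →
          ∀ (red : Y → ΩS → RAlg D R (PK × C) X) (t : ℕ), (∀ y σ f B, (red y σ).cost f B ≤ t) →
          𝔼 f ∈ El W, phiInv φ j red f (fun pk c => (A pk c).run f) ≤
            (r * (t * (3000 * r ^ 4 * q ^ 5 / ε ^ 4 + 1) + 1) + 1) *
              (1 / (Fintype.card X : ℝ) + coll φ)) ∧
    (∀ (K : Type) [Field K] (m d : ℕ) (T : Finset K), T.card = d + 1 →
      InfoSet (fun (x : Fin m → T) (i : Fin m) => (x i : K)) (lowDeg K m d)) ∧
    (∀ (p M κ c : ℕ) [Fact p.Prime] (I : Type) (F : I → Type) [∀ i, Field (F i)]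
      [∀ i, Algebra (ZMod p) (F i)] (ι : ∀ i, F i →ₗ[ZMod p] Bits p κ), 1 ≤ c →
      (∀ i, Function.Injective (ι i)) →
      Module.length (ZMod p) (Bits p κ) = (2 ^ κ : ℕ) ∧
      (∀ k : Fin (M + 1),
        InfoSet (fun x : Fin k → Bool => (Sum.inl ⟨k, x⟩ : AWQuery M κ F)) (AW M c ι)) ∧
      coll (zeros p κ) = (((p : ℝ) ^ 2 - 2 * p + 2) / p ^ 2) ^ (2 ^ κ) ∧
      ∃ g : ∀ i, Bits p κ → F i, ∀ f ∈ AW M c ι, ∃ A : ∀ n, (Fin n → Bool) → Bool,
        (∀ (k : Fin (M + 1)) (x : Fin k → Bool),
          zeros p κ (f (Sum.inl ⟨k, x⟩)) = fun l => A (k + κ) (Fin.append x l)) ∧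
        ∀ (n : Fin (M + κ + 1)) (i : I), ∃ P ∈ restrictDegree (Fin n) (F i) ((p - 1) * c),
          (∀ y : Fin n → Bool,
            eval (fun v => if y v then 1 else 0) P = if A n y then 1 else 0) ∧
          ∀ z : Fin n → F i, g i (f (Sum.inr ⟨n, i, z⟩)) = eval z P) := by
  classical
  refine ⟨?_, ?_, ?_⟩
  · intro K D R PK SK C ΩG ΩE ΩD _ _ _ _ _ _ _ _ _ _ W S q r ε hq hq1 hr hr1 hε hε1
    obtain ⟨A, hA1, hA2⟩ := S.attack W hq hq1 hr hr1 hε hε1
    refine ⟨A, hA1, hA2, ?_⟩
    intro X Y ΩS _ _ _ φ j hj red t hred
    have hB0 : 0 ≤ 3000 * (r : ℝ) ^ 4 * q ^ 5 / ε ^ 4 := by positivity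
    have hE : ∀ pk c f, (A pk c).cost f ≤ ⌊3000 * (r : ℝ) ^ 4 * q ^ 5 / ε ^ 4⌋₊ :=
      fun pk c f => Nat.le_floor (hA1 pk c f)
    refine (expect_phiInv_le hj hr φ red hred A hE rfl).trans ?_
    have hc := coll_nonneg φ
    refine mul_le_mul_of_nonneg_right ?_ (by positivity)
    have hfl := Nat.floor_le hB0
    rw [Nat.cast_mul, Nat.cast_add, Nat.cast_one]
    gcongr
  · intro K _ m d T hT
    exact infoSet_lowDeg m d T hT
  · intro p M κ c _ I F _ _ ι hc hι
    exact ⟨length_bits p κ, infoSet_AW hc ι, coll_zeros p κ, exists_bool ι hι⟩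

end Pool.Agent.Results.MP_5f4f03_lc.AlgebraicOracles
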