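import Pool.Agent.PKEp.FinalA

/-!
# Unconditional public-key encryption against `AC⁰[q]`, for all primes `q` at once

For every `e` there is one public-key encryption scheme for bits such that every bit of the
public key and of the ciphertext depends on at most four bits, decryption is one parity of ANDs
of two bits, decryption is always correct, and every constant-depth circuit family with AND, OR
and `MOD q` gates, `q` any prime (unknown to the scheme), of size up to `2 ^ (n ^ (1 / d))` in
depth `d`, on top of arbitrary functions of up to `n` bits, has advantage at most `1 / n ^ e`. No
assumption is used.

The scheme: `W` is a matrix over `F₂` with a first row `s` and below it a unitriangular matrix,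
`t` a vector; the public key is `(W, W t)`, the secret key `t`, the ciphertext of `b` is
`(r W, r W t + b)`; all sums are replaced by additive shares along a cycle, so that every bit is
local. If the first coordinate of `W t` is changed, the ciphertext is independent of `b`. The
pair of distributions of keys is universal: for every layered branching program for a function
`f` there is, for every input `x`, a way to make a key whose type is `f x` such that every bit
depends on one bit of `x`. Majority has such a program and is hard for `AC⁰[q]` on average
(Razborov, Smolensky).
-/

theorem Pool.Agent.Results.MP_5f4f03_lc.AllPrimesPKE.result (e : ℕ) :
    ∃ S : Pool.Agent.ACP.PKE, Pool.Agent.PKEp.PolyB S ∧ Pool.Agent.PKEp.LocalB S ∧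
      Pool.Agent.PKEp.DecParity S ∧ S.Perfect ∧ Pool.Agent.PKEp.SecureAll S e :=
  Pool.Agent.PKEp.main_all e
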