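import Pool.Agent.ACS.Final

/-!
# Unconditional public-key encryption in the world of constant-depth circuits

There is a public-key encryption scheme whose key generation and decryption are computed by
polynomial-size circuits of constant depth, whose encryption has locality 3, which always decrypts
correctly, and which no polynomial-size circuit family of constant depth with `c * log n` arbitrary
symmetric gates (of any depth and any polynomial size, for any `c`) breaks with advantage
`1 / n ^ e`, for any `e`.
-/

theorem Pool.Agent.Results.MP_5f4f03_lc.ConstantDepthPKE.result :
    ∃ S : Pool.Agent.ACP.PKE, S.InAC0 ∧ S.EncLocal ∧ S.Perfect ∧ Pool.Agent.ACS.SecureSym S :=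
  Pool.Agent.ACS.exists_pke_sym
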