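import Pool.Agent.QKA99.Robust

/-!
# Key agreement between quantum parties over a classical channel

The definitions are in `Pool.Agent.QKA99.Defs` (parties, protocols), `Pool.Agent.QPKE99.Defs`
(oracle gate) and `Pool.Agent.PKE70.Defs` (classical adaptive oracle algorithms). That the
numbers `Protocol.prob` add up to `1` is `Pool.Agent.QKA99.sum_prob`. The case in which Alice's key
never exceeds Bob's (one-sided error) is `Pool.Agent.QKA99.exists_eve`.
-/

set_option autoImplicit false

open scoped BigOperators

namespace Pool.Agent.Results.MP_5f4f03_lc.QuantumKeyAgreement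

open Pool.Agent.PKE70 Pool.Agent.QPKE99 Pool.Agent.QKA99

/-- Let two quantum parties with at most `qA` and `qB` superposition queries to `f : D → R`
exchange `n` classical messages, after which each outputs a key in a finite set or gives up.
Suppose that, for every `f`, given the transcript and Alice's key, and given that Bob outputs a key,
Bob's key is Alice's key with probability at least `1 / 2 + δ`. Then an eavesdropper who reads the
transcript and makes at most `12 qA ^ 2 qB ^ 2 / δ ^ 2` classical queries finds, for every `f`,
the key that Alice outputs, with certainty (if Bob outputs a key with positive probability). In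
particular this holds, with `δ = 1 / 2`, if the parties never output different keys. -/
theorem result {D R W W' M K : Type} [Fintype D] [AddCommGroup R] [Fintype R] [Fintype W]
    [Fintype W'] [Fintype K] [Nonempty K] (P : Protocol D R W W' M K) (n qA qB : ℕ)
    (hq : P.QueryBound n qA qB) (δ : ℝ) (hδ : 0 < δ)
    (h : ∀ (f : D → R) (t : List M) (k : K), t.length = n →
      (1 / 2 + δ) * ∑ k', P.prob f t (some k) (some k') ≤ P.prob f t (some k) (some k)) :
    ∃ Eve : List M → QAlg D R K, ∀ t : List M, t.length = n → ∀ f : D → R,
      ((Eve t).cost f : ℝ) ≤ 12 * (qA : ℝ) ^ 2 * (qB : ℝ) ^ 2 / δ ^ 2 ∧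
        ∀ k k' : K, P.prob f t (some k) (some k') ≠ 0 → (Eve t).run f = k :=
  exists_eve_robust P n qA qB hq δ hδ h

end Pool.Agent.Results.MP_5f4f03_lc.QuantumKeyAgreement
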